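import Mathlib

set_option autoImplicit false

/-!
# Hyperbolic 9-space (upper half-space model) and the group `O⁺(U ⊕ E₈)`

Points are pairs `(z, r)` with `z ∈ ℝ⁸` and `r` a real number; hyperbolic 9-space is the part
`0 < r`. Lorentz space `ℝ^{9,1}` is `ℝ × ℝ × ℝ⁸` with the form `⟨v, v'⟩ - a b' - b a'`.
-/

namespace Pool.Agent.Helper10.LorP

open MeasureTheory

/-- ambient space `ℝ⁸ × ℝ` of the upper half-space model of hyperbolic 9-space -/
abbrev Pt := (Fin 8 → ℝ) × ℝ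

/-- Lorentz space `ℝ × ℝ × ℝ⁸` -/
abbrev LV := ℝ × ℝ × (Fin 8 → ℝ)

/-- hyperbolic 9-space, the upper half-space -/
def UH : Set Pt := {p | 0 < p.2}

/-- the standard inner product of `ℝ⁸` -/
def dot (v w : Fin 8 → ℝ) : ℝ := ∑ i, v i * w i

/-- the Lorentzian bilinear form `⟨v, v'⟩ - a b' - b a'` of `(a, b, v)` and `(a', b', v')` -/
def form (x y : LV) : ℝ := dot x.2.2 y.2.2 - x.1 * y.2.1 - x.2.1 * y.1

/-- the vector of norm `-1` representing `(z, r)`: `(1, (|z|² + r²) / 2, z) / r` -/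
noncomputable def vec (p : Pt) : LV :=
  (1 / p.2, (dot p.1 p.1 + p.2 ^ 2) / (2 * p.2), fun i => p.1 i / p.2)

/-- the point `(v / a, 1 / a)` represented by the vector `(a, b, v)` of norm `-1` -/
noncomputable def pnt (x : LV) : Pt := (fun i => x.2.2 i / x.1, 1 / x.1)

/-- the action of a bijection of Lorentz space on the upper half-space -/
noncomputable def act (g : Equiv.Perm LV) (p : Pt) : Pt := pnt (g (vec p))

/-- the root lattice `E₈`: all coordinates integers or all coordinates halves of odd integers,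
with even coordinate sum -/
def E8 : Set (Fin 8 → ℝ) :=
  {x | ((∀ i, ∃ m : ℤ, x i = m) ∨ ∀ i, ∃ m : ℤ, x i = m + 1 / 2) ∧ ∃ m : ℤ, ∑ i, x i = 2 * m}

/-- the even unimodular lattice `U ⊕ E₈ = ℤ ⊕ ℤ ⊕ E₈` in Lorentz space -/
def lat : Set LV := {x | (∃ a : ℤ, x.1 = a) ∧ (∃ b : ℤ, x.2.1 = b) ∧ x.2.2 ∈ E8}

/-- `g` preserves the Lorentzian form (so it is linear), the future cone and the lattice -/
def IsAut (g : Equiv.Perm LV) : Prop :=
  (∀ x y, form (g x) (g y) = form x y) ∧ (∀ x, form x x < 0 → (0 < (g x).1 ↔ 0 < x.1)) ∧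
    ∀ x, g x ∈ lat ↔ x ∈ lat

theorem IsAut.mul {g h : Equiv.Perm LV} (hg : IsAut g) (hh : IsAut h) : IsAut (g * h) := by
  obtain ⟨hg1, hg2, hg3⟩ := hg
  obtain ⟨hh1, hh2, hh3⟩ := hh
  refine ⟨fun x y => ?_, fun x hx => ?_, fun x => ?_⟩
  · rw [Equiv.Perm.mul_apply, Equiv.Perm.mul_apply, hg1, hh1]
  · rw [Equiv.Perm.mul_apply, hg2 _ (by rwa [hh1]), hh2 x hx]
  · rw [Equiv.Perm.mul_apply, hg3, hh3]

theorem IsAut.one : IsAut 1 := ⟨fun _ _ => rfl, fun _ _ => Iff.rfl, fun _ => Iff.rfl⟩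

theorem IsAut.inv {g : Equiv.Perm LV} (hg : IsAut g) : IsAut g⁻¹ := by
  obtain ⟨hg1, hg2, hg3⟩ := hg
  have key : ∀ x, g (g⁻¹ x) = x := fun x => g.apply_symm_apply x
  have hi : ∀ x y, form (g⁻¹ x) (g⁻¹ y) = form x y := fun x y => by
    rw [← hg1 (g⁻¹ x) (g⁻¹ y), key, key]
  refine ⟨hi, fun x hx => ?_, fun x => ?_⟩
  · have h := hg2 (g⁻¹ x) (by rwa [hi])
    rw [key] at h
    exact h.symm
  · rw [← hg3 (g⁻¹ x), key]

/-- the group `O⁺(U ⊕ E₈)` -/
def O8 : Subgroup (Equiv.Perm LV) where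
  carrier := {g | IsAut g}
  mul_mem' := IsAut.mul
  one_mem' := IsAut.one
  inv_mem' := IsAut.inv

/-- the translation `(z, r) ↦ (z + v, r)` (an Eichler transformation), as a map -/
noncomputable def tr (v : Fin 8 → ℝ) (x : LV) : LV :=
  (x.1, x.2.1 + dot x.2.2 v + x.1 * (dot v v / 2), fun i => x.2.2 i + x.1 * v i)

theorem tr_tr (v : Fin 8 → ℝ) (x : LV) : tr v (tr (-v) x) = x := by
  unfold tr dot
  refine Prod.ext rfl (Prod.ext ?_ ?_)
  · simp only [Pi.neg_apply, mul_neg, Finset.sum_neg_distrib, add_mul, Finset.sum_add_distrib,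
      neg_mul, neg_neg, mul_assoc, ← Finset.mul_sum]
    ring
  · funext i
    simp

theorem tr_tr' (v : Fin 8 → ℝ) (x : LV) : tr (-v) (tr v x) = x := by
  have := tr_tr (-v) x
  rwa [neg_neg] at this

/-- the translation `(z, r) ↦ (z + v, r)` (an Eichler transformation) -/
noncomputable def T (v : Fin 8 → ℝ) : Equiv.Perm LV := ⟨tr v, tr (-v), tr_tr' v, tr_tr v⟩

/-- directional derivative -/
noncomputable def pd (e : Pt) (f : Pt → ℂ) (p : Pt) : ℂ := fderiv ℝ f p e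

/-- the coordinate directions of `ℝ⁸` in `ℝ⁸ × ℝ` -/
def dir (k : Fin 8) : Pt := (fun i => if i = k then 1 else 0, 0)

/-- the vertical direction -/
def er : Pt := (0, 1)

/-- hyperbolic Laplacian `r² (∑ of the 9 second coordinate derivatives) - 7 r ∂/∂r` -/
noncomputable def lap (f : Pt → ℂ) (p : Pt) : ℂ :=
  (p.2 : ℂ) ^ 2 * ((∑ k : Fin 8, pd (dir k) (pd (dir k) f) p) + pd er (pd er f) p)
    - 7 * (p.2 : ℂ) * pd er f p

end Pool.Agent.Helper10.LorP
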