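import Pool.Agent.Helper10.LorP.Defs
import Pool.Agent.Helper10.Lor.Final

set_option autoImplicit false

/-!
# Translation of the main theorem to the elementary formulation
-/

namespace Pool.Agent.Helper10.LorP

open MeasureTheory
open Pool.Agent.Helper10

/-- the coordinates -/
noncomputable def eL : Lor.LV 8 ≃ LV where
  toFun x := (x.1, x.2.1, fun i => x.2.2 i)
  invFun y := (y.1, y.2.1, WithLp.toLp 2 y.2.2)
  left_inv _ := rfl
  right_inv _ := rfl

theorem dot_inner (v w : Lor.E 8) : dot (fun i => v i) (fun i => w i) = inner ℝ v w := by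
  unfold dot
  rw [PiLp.inner_apply]
  refine Finset.sum_congr rfl fun i _ => ?_
  simp [mul_comm]

theorem dot_self (v : Lor.E 8) : dot (fun i => v i) (fun i => v i) = ‖v‖ ^ 2 := by
  rw [dot_inner, real_inner_self_eq_norm_sq]

theorem form_eL (x y : Lor.LV 8) : form (eL x) (eL y) = Lor.form x y := by
  show dot (fun i => x.2.2 i) (fun i => y.2.2 i) - x.1 * y.2.1 - x.2.1 * y.1 = Lor.form x y
  rw [dot_inner]
  rfl

theorem mem_E8 (v : Lor.E 8) : (fun i => v i) ∈ E8 ↔ v ∈ Lor.E8 := Iff.rfl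

theorem mem_lat (x : Lor.LV 8) : eL x ∈ lat ↔ x ∈ Lor.lat Lor.E8 := Iff.rfl

/-- linear automorphisms as permutations -/
noncomputable def ph : (Lor.LV 8 ≃ₗ[ℝ] Lor.LV 8) →* Equiv.Perm LV where
  toFun g := (eL.symm.trans g.toEquiv).trans eL
  map_one' := rfl
  map_mul' _ _ := rfl

theorem ph_apply (g : Lor.LV 8 ≃ₗ[ℝ] Lor.LV 8) (x : Lor.LV 8) : ph g (eL x) = eL (g x) := rfl

theorem ph_mem {g : Lor.LV 8 ≃ₗ[ℝ] Lor.LV 8} (hg : g ∈ Lor.OL Lor.E8) : ph g ∈ O8 := by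
  have hgi := (Lor.OL Lor.E8).inv_mem hg
  obtain ⟨⟨h1, h2⟩, h3⟩ := hg
  obtain ⟨⟨k1, k2⟩, _⟩ := hgi
  refine ⟨fun x y => ?_, fun x hx => ?_, fun x => ?_⟩
  · obtain ⟨x, rfl⟩ := eL.surjective x
    obtain ⟨y, rfl⟩ := eL.surjective y
    rw [ph_apply, ph_apply, form_eL, form_eL, h1]
  · obtain ⟨x, rfl⟩ := eL.surjective x
    rw [form_eL] at hx
    rw [ph_apply]
    constructor
    · intro h
      have h' : 0 < (g x).1 := h
      have := k2 (g x) (by rwa [h1]) h'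
      have e : g⁻¹ (g x) = x := g.symm_apply_apply x
      rw [e] at this
      exact this
    · intro h
      exact h2 x hx h
  · obtain ⟨x, rfl⟩ := eL.surjective x
    rw [ph_apply, mem_lat, mem_lat, h3]

/-- a bijection preserving the form is linear -/
theorem linear_of_form {g : Lor.LV 8 ≃ Lor.LV 8}
    (hg : ∀ x y, Lor.form (g x) (g y) = Lor.form x y) :
    (∀ x y, g (x + y) = g x + g y) ∧ ∀ (c : ℝ) x, g (c • x) = c • g x := by
  have nd : ∀ x : Lor.LV 8, (∀ y, Lor.form x y = 0) → x = 0 := by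
    intro x hx
    have h1 := hx (1, 0, 0)
    have h2 := hx (0, 1, 0)
    have h3 := hx (0, 0, x.2.2)
    simp only [Lor.form, inner_zero_right, mul_zero, mul_one] at h1 h2 h3
    refine Prod.ext ?_ (Prod.ext ?_ ?_)
    · show x.1 = 0
      linarith
    · show x.2.1 = 0
      linarith
    · show x.2.2 = 0
      have : inner ℝ x.2.2 x.2.2 = 0 := by linarith
      exact inner_self_eq_zero.1 this
  have fadd : ∀ x y z : Lor.LV 8, Lor.form (x + y) z = Lor.form x z + Lor.form y z := by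
    intro x y z
    simp only [Lor.form, Prod.fst_add, Prod.snd_add, inner_add_left]
    ring
  have fsmul : ∀ (c : ℝ) (x z : Lor.LV 8), Lor.form (c • x) z = c * Lor.form x z := by
    intro c x z
    simp only [Lor.form, Prod.smul_fst, Prod.smul_snd, smul_eq_mul, real_inner_smul_left]
    ring
  constructor
  · intro x y
    have h : g (x + y) + (-1 : ℝ) • (g x + g y) = 0 := by
      apply nd
      intro z
      obtain ⟨z, rfl⟩ := g.surjective z
      rw [fadd, fsmul, fadd, hg, hg, hg, fadd]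
      ring
    rw [neg_one_smul, ← sub_eq_add_neg, sub_eq_zero] at h
    exact h
  · intro c x
    have h : g (c • x) + (-1 : ℝ) • (c • g x) = 0 := by
      apply nd
      intro z
      obtain ⟨z, rfl⟩ := g.surjective z
      rw [fadd, fsmul, fsmul, hg, hg, fsmul]
      ring
    rw [neg_one_smul, ← sub_eq_add_neg, sub_eq_zero] at h
    exact h

theorem exists_ph {g : Equiv.Perm LV} (hg : g ∈ O8) : ∃ g' ∈ Lor.OL Lor.E8, ph g' = g := by
  obtain ⟨h1, h2, h3⟩ := hg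
  let k : Lor.LV 8 ≃ Lor.LV 8 := (eL.trans g).trans eL.symm
  have hk : ∀ x, eL (k x) = g (eL x) := fun x => eL.apply_symm_apply _
  have hkf : ∀ x y, Lor.form (k x) (k y) = Lor.form x y := by
    intro x y
    rw [← form_eL, hk, hk, h1, form_eL]
  obtain ⟨ha, hs⟩ := linear_of_form hkf
  let K : Lor.LV 8 ≃ₗ[ℝ] Lor.LV 8 :=
    { toFun := k
      map_add' := ha
      map_smul' := hs
      invFun := k.symm
      left_inv := k.left_inv
      right_inv := k.right_inv }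
  have hK : ∀ x, K x = k x := fun x => rfl
  refine ⟨K, ⟨⟨fun x y => ?_, fun x hx hx1 => ?_⟩, fun x => ?_⟩, ?_⟩
  · rw [hK, hK, hkf]
  · have := (h2 (eL x) (by rwa [form_eL])).2 hx1
    rw [← hk] at this
    exact this
  · rw [hK, ← mem_lat, hk, h3, mem_lat]
  · ext1 x
    obtain ⟨x, rfl⟩ := eL.surjective x
    rw [ph_apply, hK, hk]

theorem map_OL : (Lor.OL Lor.E8).map ph = O8 := by
  ext g
  rw [Subgroup.mem_map]
  constructor
  · rintro ⟨g', hg', rfl⟩
    exact ph_mem hg'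
  · exact exists_ph

/-- the coordinates of points -/
noncomputable def L : Lor.Pt 8 ≃L[ℝ] Pt :=
  (EuclideanSpace.equiv (Fin 8) ℝ).prodCongr (ContinuousLinearEquiv.refl ℝ ℝ)

theorem L_apply (p : Lor.Pt 8) : L p = (fun i => p.1 i, p.2) := rfl

theorem L_symm (p : Pt) : L.symm p = (WithLp.toLp 2 p.1, p.2) := rfl

theorem vec_L (p : Lor.Pt 8) : vec (L p) = eL (Lor.vec p) := by
  rw [L_apply]
  unfold vec Lor.vec
  rw [dot_self]
  refine Prod.ext rfl (Prod.ext rfl ?_)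
  funext i
  show p.1 i / p.2 = (1 / p.2) * p.1 i
  ring

theorem pnt_eL (x : Lor.LV 8) : pnt (eL x) = L (Lor.pnt x) := by
  rw [L_apply]
  refine Prod.ext ?_ rfl
  funext i
  show x.2.2 i / x.1 = (1 / x.1) * x.2.2 i
  ring

theorem act_ph (g : Lor.LV 8 ≃ₗ[ℝ] Lor.LV 8) (p : Lor.Pt 8) :
    act (ph g) (L p) = L (Lor.act g p) := by
  unfold act Lor.act
  rw [vec_L, ph_apply, pnt_eL]

theorem T_ph (v : Lor.E 8) : ph (Lor.T v) = T (fun i => v i) := by
  ext1 x
  obtain ⟨x, rfl⟩ := eL.surjective x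
  rw [ph_apply]
  show eL (x.1, x.2.1 + inner ℝ x.2.2 v + x.1 * (‖v‖ ^ 2 / 2), x.2.2 + x.1 • v) =
    tr (fun i => v i) (eL x)
  unfold tr
  rw [dot_self]
  have e : dot (eL x).2.2 (fun i => v i) = inner ℝ x.2.2 v := dot_inner _ _
  rw [e]
  refine Prod.ext rfl (Prod.ext rfl ?_)
  funext i
  rfl

theorem pd_L (e : Lor.Pt 8) (f : Pt → ℂ) (p : Lor.Pt 8) :
    Lor.pd e (fun q => f (L q)) p = pd (L e) f (L p) := by
  unfold Lor.pd pd
  have h := L.comp_right_fderiv (f := f) (x := p)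
  have h2 : fderiv ℝ (fun q => f (L q)) p = (fderiv ℝ f (L p)).comp (L : Lor.Pt 8 →L[ℝ] Pt) := h
  rw [h2]
  rfl

theorem dir_L (k : Fin 8) : L (Lor.dir k) = dir k := by
  rw [L_apply]
  unfold Lor.dir dir
  refine Prod.ext ?_ rfl
  funext i
  show (EuclideanSpace.single k (1 : ℝ)) i = if i = k then 1 else 0
  rw [PiLp.single_apply]

theorem er_L : L (Lor.er) = er := rfl

theorem lap_L (f : Pt → ℂ) (p : Lor.Pt 8) :
    Lor.lap (fun q => f (L q)) p = lap f (L p) := by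
  unfold Lor.lap lap
  have h1 : ∀ (e : Lor.Pt 8), (fun q => Lor.pd e (fun q => f (L q)) q) =
      fun q => (pd (L e) f) (L q) := fun e => funext fun q => pd_L e f q
  have h2 : ∀ (e : Lor.Pt 8), Lor.pd e (Lor.pd e (fun q => f (L q))) p =
      pd (L e) (pd (L e) f) (L p) := by
    intro e
    have : Lor.pd e (fun q => f (L q)) = fun q => (pd (L e) f) (L q) := h1 e
    rw [this, pd_L]
  simp only [h2, dir_L, er_L, pd_L]
  have e3 : ((8 : ℕ) : ℂ) - 1 = 7 := by norm_num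
  rw [e3]
  rfl

theorem main (Δ : Subgroup (Equiv.Perm LV)) (hfi : Δ.relIndex O8 ≠ 0)
    (f : Pt → ℂ) (hf : ContDiffOn ℝ 2 f UH)
    (hinv : ∀ γ ∈ Δ, ∀ p ∈ UH, f (act γ p) = f p)
    (hbdd : ∃ B : ℝ, ∀ p ∈ UH, ‖f p‖ ≤ B)
    (lam : ℂ) (heig : ∀ p ∈ UH, lap f p = -lam * f p)
    (hcusp : ∀ γ ∈ O8, ∃ b : Fin 8 → Fin 8 → ℝ, (∀ i, b i ∈ E8 ∧ γ * T (b i) * γ⁻¹ ∈ Δ) ∧
      (∀ ξ : Fin 8 → ℝ, ξ ≠ 0 → (∀ i, ∃ k : ℤ, dot ξ (b i) = k) → 1 / 2 ≤ dot ξ ξ) ∧
      ∀ r : ℝ, 0 < r →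
        ∫ x in Set.Icc (0 : Fin 8 → ℝ) 1, f (act γ (fun j => ∑ i, x i * b i j, r)) = 0)
    (hne : ∃ p ∈ UH, f p ≠ 0) : ∃ l : ℝ, 16 ≤ l ∧ lam = l := by
  refine Lor.main_E8 (Δ.comap ph) ?_ (fun q => f (L q)) ?_ ?_ ?_ lam ?_ ?_ ?_
  · rw [Subgroup.relIndex_comap, map_OL]
    exact hfi
  · exact hf.comp L.contDiff.contDiffOn (fun p hp => hp)
  · intro γ hγ p hp
    show f (L (Lor.act γ p)) = f (L p)
    rw [← act_ph]
    exact hinv _ hγ _ hp
  · obtain ⟨B, hB⟩ := hbdd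
    exact ⟨B, fun p hp => hB _ hp⟩
  · intro p hp
    rw [lap_L]
    exact heig _ hp
  · intro γ hγ
    obtain ⟨b, h1, h2, h3⟩ := hcusp _ (ph_mem hγ)
    refine ⟨fun i => WithLp.toLp 2 (b i), fun i => ⟨(h1 i).1, ?_⟩, fun ξ hξ hk => ?_,
      fun r hr => ?_⟩
    · rw [Subgroup.mem_comap, map_mul, map_mul, map_inv, T_ph]
      exact (h1 i).2
    · have hξ' : (fun i => ξ i) ≠ (0 : Fin 8 → ℝ) := by
        intro h
        apply hξ
        ext i
        exact congrFun h i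
      have := h2 (fun i => ξ i) hξ' (fun i => by
        obtain ⟨k, hk'⟩ := hk i
        refine ⟨k, ?_⟩
        rw [← hk']
        exact dot_inner ξ (WithLp.toLp 2 (b i)))
      rwa [dot_self] at this
    · rw [← h3 r hr]
      congr 1
      funext x
      show f (L (Lor.act γ (∑ i, x i • WithLp.toLp 2 (b i), r))) = _
      rw [← act_ph]
      have e : L (∑ i, x i • WithLp.toLp 2 (b i), r) = ((fun j => ∑ i, x i * b i j, r) : Pt) := by
        rw [L_apply]
        refine Prod.ext ?_ rfl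
        funext j
        simp
      rw [e]
  · obtain ⟨p, hp, hfp⟩ := hne
    refine ⟨L.symm p, hp, ?_⟩
    show f (L (L.symm p)) ≠ 0
    rw [L.apply_symm_apply]
    exact hfp

end Pool.Agent.Helper10.LorP
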